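import Pool.Agent.Y364.E3.Tree

/-!
# An obstruction to local constructibility

A three-sheeted flat bundle over the complement of an edge `e` in a 3-dimensional complex, given
by the maps `psi u v`, that has a section near `e` but no global section.
-/

set_option autoImplicit false

namespace Pool.Agent.X161.CN

open Finset Pool.Agent.H933R3 Pool.Agent.Y364.E3

variable {V : Type} [DecidableEq V]

structure Con (K : Finset (Finset V)) (e : Finset V) (psi : V → V → Fin 3 → Fin 3)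
    (s : V → Fin 3) : Prop where
  coc : ∀ F, IsFacet K F → ∀ u ∈ F, ∀ v ∈ F, ∀ w ∈ F, u ∉ e → v ∉ e → w ∉ e → ∀ c,
    psi v w (psi u v c) = psi u w c
  refl : ∀ F, IsFacet K F → ∀ u ∈ F, u ∉ e → ∀ c, psi u u c = c
  loc : ∀ F, IsFacet K F → e ⊆ F → ∀ u ∈ F, ∀ v ∈ F, u ∉ e → v ∉ e → psi u v (s u) = s v
  two : e.card = 2
  three : ∀ F F' R, IsFacet K F → IsFacet K F' → F ≠ F' → e ⊆ F → e ⊆ F' → R.card = 3 →
    e ⊆ R → (∃ X Y, IsFacet K X ∧ IsFacet K Y ∧ X ≠ Y ∧ R ⊆ X ∧ R ⊆ Y) → R ⊆ F ∨ R ⊆ F'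
  nosec : ¬ ∃ g : V → Fin 3, ∀ F, IsFacet K F → ∀ u ∈ F, ∀ v ∈ F, u ∉ e → v ∉ e →
    psi u v (g u) = g v

/-- a labelling of the vertices of the simplices in `𝓕` compatible with the gluings in `G` -/
structure Lab (e : Finset V) (psi : V → V → Fin 3 → Fin 3) (𝓕 G : Finset (Finset V))
    (g : Finset V → V → Fin 3) : Prop where
  fl : ∀ F ∈ 𝓕, ∀ u ∈ F, ∀ v ∈ F, u ∉ e → v ∉ e → psi u v (g F u) = g F v
  gl : ∀ R ∈ G, ∀ F ∈ 𝓕, ∀ F' ∈ 𝓕, R ⊆ F → R ⊆ F' → ∀ v ∈ R, v ∉ e → g F v = g F' v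

theorem exists_out {e R : Finset V} (he : e.card = 2) (hR : R.card = 3) : ∃ a ∈ R, a ∉ e := by
  by_contra h
  have h1 : R ⊆ e := by
    intro a ha
    by_contra h2
    exact h ⟨a, ha, h2⟩
  have := card_le_card h1
  omega

variable {K : Finset (Finset V)} {e : Finset V} {psi : V → V → Fin 3 → Fin 3} {s : V → Fin 3}

/-- the simplices and gluing faces of a stage -/
structure Stg (K 𝓕 G : Finset (Finset V)) : Prop where
  fac : ∀ F ∈ 𝓕, IsFacet K F
  two : ∀ R ∈ G, R.card = 3 ∧ ∃ X ∈ 𝓕, ∃ Y ∈ 𝓕, X ≠ Y ∧ R ⊆ X ∧ R ⊆ Y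

theorem ext_lab (hC : Con K e psi s) (h2 : AtMostTwo 3 K) {𝓕 T : Finset (Finset V)}
    (hS : Stg K 𝓕 T) {F F' R : Finset V} (hF : F ∈ 𝓕) (hF' : IsFacet K F') (hn : F' ∉ 𝓕)
    (hR : R.card = 3) (h3 : R ⊆ F) (h4 : R ⊆ F') {g : Finset V → V → Fin 3}
    (hg : Lab e psi 𝓕 T g) {l : V → Fin 3}
    (hl : ∀ u ∈ F', ∀ v ∈ F', u ∉ e → v ∉ e → psi u v (l u) = l v)
    (hag : ∀ v ∈ R, v ∉ e → g F v = l v) :
    Lab e psi (insert F' 𝓕) (insert R T) (fun X => if X = F' then l else g X) := by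
  have hne : F ≠ F' := fun e => hn (e ▸ hF)
  have hold : ∀ X ∈ 𝓕, X ≠ F' := fun X hX e => hn (e ▸ hX)
  constructor
  · intro X hX u hu v hv hue hve
    rcases mem_insert.1 hX with rfl | hX
    · rw [if_pos rfl]
      exact hl u hu v hv hue hve
    · rw [if_neg (hold X hX)]
      exact hg.fl X hX u hu v hv hue hve
  · intro R' hR' X hX Y hY hRX hRY v hv hve
    rcases mem_insert.1 hR' with rfl | hR'
    · -- the new face
      have hcase : ∀ Z ∈ insert F' 𝓕, R' ⊆ Z → (if Z = F' then l else g Z) v = l v := by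
        intro Z hZ hRZ
        rcases mem_insert.1 hZ with rfl | hZ
        · rw [if_pos rfl]
        · rw [if_neg (hold Z hZ)]
          rcases h2 R' hR F F' Z (hS.fac F hF) hF' (hS.fac Z hZ) h3 h4 hRZ with e1 | e1 | e1
          · exact absurd e1 hne
          · rw [← e1]
            exact hag v hv hve
          · exact absurd e1.symm (hold Z hZ)
      rw [hcase X hX hRX, hcase Y hY hRY]
    · obtain ⟨hc, X1, hX1, Y1, hY1, hXY, hRX1, hRY1⟩ := hS.two R' hR'
      have hnot : ∀ Z ∈ insert F' 𝓕, R' ⊆ Z → Z ∈ 𝓕 := by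
        intro Z hZ hRZ
        rcases mem_insert.1 hZ with rfl | hZ
        · rcases h2 R' hc Z X1 Y1 hF' (hS.fac X1 hX1) (hS.fac Y1 hY1) hRZ hRX1 hRY1 with
            e1 | e1 | e1
          · rw [e1]; exact hX1
          · rw [e1]; exact hY1
          · exact absurd e1 hXY
        · exact hZ
      have hX' := hnot X hX hRX
      have hY' := hnot Y hY hRY
      rw [if_neg (hold X hX'), if_neg (hold Y hY')]
      exact hg.gl R' hR' X hX' Y hY' hRX hRY v hv hve

theorem tree_lab (hC : Con K e psi s) (h2 : AtMostTwo 3 K) {𝓕 T : Finset (Finset V)}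
    (hT : TreeStage 3 K 𝓕 T) : Stg K 𝓕 T ∧ ∀ F0 ∈ 𝓕, ∀ l : V → Fin 3,
      (∀ u ∈ F0, ∀ v ∈ F0, u ∉ e → v ∉ e → psi u v (l u) = l v) →
      ∃ g, Lab e psi 𝓕 T g ∧ ∀ v ∈ F0, v ∉ e → g F0 v = l v := by
  induction hT with
  | start F hF =>
    refine ⟨⟨fun X hX => by rw [mem_singleton.1 hX]; exact hF,
      fun R hR => absurd hR (notMem_empty _)⟩, ?_⟩
    intro F0 hF0 l hl
    rw [mem_singleton] at hF0
    subst hF0
    refine ⟨fun _ => l, ⟨fun X hX => ?_, fun R hR => absurd hR (notMem_empty _)⟩,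
      fun v _ _ => rfl⟩
    rw [mem_singleton.1 hX]
    exact hl
  | attach 𝓕 T F F' R h hF hF' hn hR h3 h4 hT ih =>
    obtain ⟨hS, ih⟩ := ih
    have hne : F ≠ F' := fun e => hn (e ▸ hF)
    obtain ⟨a, haR, hae⟩ := exists_out hC.two hR
    refine ⟨⟨?_, ?_⟩, ?_⟩
    · intro X hX
      rcases mem_insert.1 hX with rfl | hX
      · exact hF'
      · exact hS.fac X hX
    · intro X hX
      rcases mem_insert.1 hX with rfl | hX
      · exact ⟨hR, F, mem_insert_of_mem hF, F', mem_insert_self _ _, hne, h3, h4⟩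
      · obtain ⟨hc, X1, hX1, Y1, hY1, hXY⟩ := hS.two X hX
        exact ⟨hc, X1, mem_insert_of_mem hX1, Y1, mem_insert_of_mem hY1, hXY⟩
    · intro F0 hF0 l hl
      rcases mem_insert.1 hF0 with rfl | hF0
      · -- prescribed on the new simplex
        obtain ⟨g, hg, hgF⟩ := ih F hF (fun v => psi a v (l a)) (fun u hu v hv hue hve =>
          hC.coc F (hS.fac F hF) a (h3 haR) u hu v hv hae hue hve _)
        refine ⟨_, ext_lab hC h2 hS hF hF' hn hR h3 h4 hg hl (fun v hv hve => ?_), ?_⟩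
        · rw [hgF v (h3 hv) hve]
          exact hl a (h4 haR) v (h4 hv) hae hve
        · intro v _ _
          simp
      · obtain ⟨g, hg, hgF⟩ := ih F0 hF0 l hl
        refine ⟨_, ext_lab hC h2 hS hF hF' hn hR h3 h4 hg (l := fun v => psi a v (g F a))
          (fun u hu v hv hue hve => hC.coc F' hF' a (h4 haR) u hu v hv hae hue hve _)
          (fun v hv hve => (hg.fl F hF a (h3 haR) v (h3 hv) hae hve).symm), ?_⟩
        intro v hv hve
        have : F0 ≠ F' := fun e => hn (e ▸ hF0)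
        simp only [this, if_false]
        exact hgF v hv hve

theorem glue_card {𝓕 T G : Finset (Finset V)} (hS : Stg K 𝓕 T) (hG : GlueStage 3 𝓕 T G) :
    ∀ R ∈ G, R.card = 3 := by
  induction hG with
  | start => exact fun R hR => (hS.two R hR).1
  | glue G F F' R A _ _ _ _ hR _ _ _ _ _ _ ih =>
    intro R1 hR1
    rcases mem_insert.1 hR1 with rfl | hR1
    · exact hR
    · exact ih R1 hR1

theorem sdiff_pair {X R : Finset V} (he : e.card = 2) (hX : X.card = 4) (heX : e ⊆ X)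
    (hR : R.card = 3) (heR : e ⊆ R) (hRX : R ⊆ X) {R' R'' : Finset V} (hR' : R'.card = 3)
    (heR' : e ⊆ R') (hRX' : R' ⊆ X) (hR'' : R''.card = 3) (heR'' : e ⊆ R'') (hRX'' : R'' ⊆ X) :
    R = R' ∨ R = R'' ∨ R' = R'' := by
  have key : ∀ {Y : Finset V}, Y.card = 3 → e ⊆ Y → Y ⊆ X → ∃ a ∈ X \ e, Y = insert a e := by
    intro Y hY heY hYX
    obtain ⟨a, haY, hae⟩ := exists_out he hY
    refine ⟨a, mem_sdiff.2 ⟨hYX haY, hae⟩, ?_⟩
    symm
    apply eq_of_subset_of_card_le (insert_subset haY heY)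
    rw [card_insert_of_notMem hae]
    omega
  obtain ⟨a, ha, rfl⟩ := key hR heR hRX
  obtain ⟨b, hb, rfl⟩ := key hR' heR' hRX'
  obtain ⟨c, hc, rfl⟩ := key hR'' heR'' hRX''
  have h2 : (X \ e).card = 2 := by
    rw [card_sdiff_of_subset heX]
    omega
  obtain ⟨x, y, hxy, hXe⟩ := card_eq_two.1 h2
  rw [hXe, mem_insert, mem_singleton] at ha hb hc
  rcases ha with rfl | rfl <;> rcases hb with rfl | rfl <;> rcases hc with rfl | rfl <;> simp

theorem glue_lab (hC : Con K e psi s) (h2 : AtMostTwo 3 K) {𝓕 T G : Finset (Finset V)}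
    (hT : TreeStage 3 K 𝓕 T) (hc : ∀ F, IsFacet K F → F.card = 4)
    (hG : GlueStage 3 𝓕 T G) :
    (∀ g, Lab e psi 𝓕 T g → Lab e psi 𝓕 G g) ∨ ((∃ g, Lab e psi 𝓕 G g) ∧
      ∀ R, R.card = 3 → e ⊆ R → (∃ X ∈ 𝓕, ∃ Y ∈ 𝓕, X ≠ Y ∧ R ⊆ X ∧ R ⊆ Y) → R ∈ G) := by
  obtain ⟨hS, hL⟩ := tree_lab hC h2 hT
  induction hG with
  | start => exact Or.inl fun g hg => hg
  | glue G F F' R A hG hF hF' hne hR h3 h4 hRG hA hAR hs ih =>
    have hG3 := glue_card hS hG
    -- adding the relation at `R` once the labels agree on `R`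
    have hadd : ∀ g, Lab e psi 𝓕 G g → (∀ v ∈ R, v ∉ e → g F v = g F' v) →
        Lab e psi 𝓕 (insert R G) g := by
      intro g hg hag
      refine ⟨hg.fl, ?_⟩
      intro R' hR' X hX Y hY hRX hRY v hv hve
      rcases mem_insert.1 hR' with rfl | hR'
      · have hcase : ∀ Z ∈ 𝓕, R' ⊆ Z → g Z v = g F v := by
          intro Z hZ hRZ
          rcases h2 R' hR F F' Z (hS.fac F hF) (hS.fac F' hF') (hS.fac Z hZ) h3 h4 hRZ with
            e1 | e1 | e1
          · exact absurd e1 hne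
          · rw [← e1]
          · rw [← e1]
            exact (hag v hv hve).symm
        rw [hcase X hX hRX, hcase Y hY hRY]
      · exact hg.gl R' hR' X hX Y hY hRX hRY v hv hve
    have hchain : ∀ g, Lab e psi 𝓕 G g → ∀ a ∈ A, a ∉ e → ∀ X, SameFace 𝓕 G A F X →
        g X a = g F a := by
      intro g hg a ha hae X hX
      induction hX with
      | refl => rfl
      | tail _ h ih =>
        obtain ⟨hX, hY, R', hR', h5, h6, h7⟩ := h
        rw [← hg.gl R' hR' _ hX _ hY h6 h7 a (h5 ha) hae]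
        exact ih
    by_cases hAe : A = e
    · subst hAe
      rcases ih with hA1 | ⟨-, hA2⟩
      · right
        -- choose the labelling that is the local section on `F`
        obtain ⟨g, hg, hgF⟩ := hL F hF s (hC.loc F (hS.fac F hF) (hAR.trans h3))
        have hgG := hA1 g hg
        have hch : ∀ X, SameFace 𝓕 G A F X → X ∈ 𝓕 ∧ A ⊆ X ∧ ∀ v ∈ X, v ∉ A → g X v = s v := by
          intro X hX
          induction hX with
          | refl => exact ⟨hF, hAR.trans h3, hgF⟩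
          | @tail X Y _ h ih =>
            obtain ⟨hX, hY, R', hR', h5, h6, h7⟩ := h
            refine ⟨hY, h5.trans h7, fun v hv hvA => ?_⟩
            obtain ⟨-, hAX, i2⟩ := ih
            obtain ⟨a, haR, haA⟩ := exists_out hC.two (hG3 R' hR')
            have e1 : g Y a = s a := by
              rw [← hgG.gl R' hR' X hX Y hY h6 h7 a haR haA]
              exact i2 a (h6 haR) haA
            rw [← hgG.fl Y hY a (h7 haR) v hv haA hvA, e1]
            exact hC.loc Y (hS.fac Y hY) (h5.trans h7) a (h7 haR) v hv haA hvA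
        obtain ⟨-, -, hF's⟩ := hch F' hs
        refine ⟨⟨g, hadd g hgG (fun v hv hvA => ?_)⟩, ?_⟩
        · rw [hgF v (h3 hv) hvA, hF's v (h4 hv) hvA]
        · intro R' hR' hAR' hXY
          by_contra hcon
          rw [mem_insert, not_or] at hcon
          obtain ⟨hRR, hRG'⟩ := hcon
          obtain ⟨X, hX, Y, hY, hXY, hRX, hRY⟩ := hXY
          -- a simplex whose two faces at the edge are `R` and `R'` is isolated
          have hiso : ∀ Z ∈ 𝓕, R ⊆ Z → R' ⊆ Z → ∀ R1 ∈ G, A ⊆ R1 → ¬ R1 ⊆ Z := by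
            intro Z hZ hRZ hRZ' R1 hR1 hAR1 hR1Z
            rcases sdiff_pair hC.two (hc Z (hS.fac Z hZ)) (hAR.trans hRZ) hR hAR hRZ hR' hAR' hRZ'
              (hG3 R1 hR1) hAR1 hR1Z with e1 | e1 | e1
            · exact hRR e1.symm
            · exact hRG (e1 ▸ hR1)
            · exact hRG' (e1 ▸ hR1)
          rcases hC.three F F' R' (hS.fac F hF) (hS.fac F' hF') hne (hAR.trans h3) (hAR.trans h4)
            hR' hAR' ⟨X, Y, hS.fac X hX, hS.fac Y hY, hXY, hRX, hRY⟩ with hc1 | hc1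
          · have hstay : ∀ Z, SameFace 𝓕 G A F Z → Z = F := by
              intro Z hZ
              induction hZ with
              | refl => rfl
              | tail _ h ih =>
                obtain ⟨-, -, R1, hR1, h5, h6, -⟩ := h
                rw [ih] at h6
                exact absurd h6 (hiso F hF h3 hc1 R1 hR1 h5)
            exact hne (hstay F' hs).symm
          · rcases Relation.ReflTransGen.cases_tail hs with h5 | ⟨Z, -, -, -, R1, hR1, h5, -, h6⟩
            · exact hne h5.symm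
            · exact hiso F' hF' h4 hc1 R1 hR1 h5 h6
      · exact absurd (hA2 R hR hAR ⟨F, hF, F', hF', hne, h3, h4⟩) hRG
    · -- an ordinary gluing
      have hout : ∃ a ∈ A, a ∉ e := by
        by_contra hcon
        apply hAe
        apply eq_of_subset_of_card_le
        · intro a ha
          by_contra h5
          exact hcon ⟨a, ha, h5⟩
        · rw [hC.two]
          omega
      obtain ⟨a, haA, hae⟩ := hout
      have hstep : ∀ g, Lab e psi 𝓕 G g → Lab e psi 𝓕 (insert R G) g := by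
        intro g hg
        refine hadd g hg (fun v hv hve => ?_)
        have h5 := hchain g hg a haA hae F' hs
        rw [← hg.fl F hF a (h3 (hAR haA)) v (h3 hv) hae hve,
          ← hg.fl F' hF' a (h4 (hAR haA)) v (h4 hv) hae hve, h5]
      rcases ih with h5 | ⟨⟨g, hg⟩, h5⟩
      · exact Or.inl fun g hg => hstep g (h5 g hg)
      · exact Or.inr ⟨⟨g, hstep g hg⟩, fun R' h6 h7 h8 => mem_insert_of_mem (h5 R' h6 h7 h8)⟩

/-- a complex with such a bundle is not locally constructible -/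
theorem not_lc (hC : Con K e psi s) (hcx : IsCx K) : ¬ IsTreeLC 3 K := by
  rintro ⟨hc, h2, 𝓕, T, G, hT, hG, hall, hfin⟩
  have hc' : ∀ F, IsFacet K F → F.card = 4 := hc
  obtain ⟨hS, hL⟩ := tree_lab hC h2 hT
  have hex : ∃ g, Lab e psi 𝓕 G g := by
    rcases glue_lab hC h2 hT hc' hG with h | ⟨h, -⟩
    · have hne : ∃ F, F ∈ 𝓕 := by
        cases hT with
        | start F hF => exact ⟨F, mem_singleton_self F⟩
        | attach 𝓕 T F F' R h hF => exact ⟨F, mem_insert_of_mem hF⟩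
      obtain ⟨F, hF⟩ := hne
      obtain ⟨R, hRF, hR⟩ := exists_subset_card_eq (s := F) (n := 3) (by rw [hc' F (hS.fac F hF)]; norm_num)
      obtain ⟨a, haR, hae⟩ := exists_out hC.two hR
      obtain ⟨g, hg, -⟩ := hL F hF (fun v => psi a v 0) (fun u hu v hv hue hve =>
        hC.coc F (hS.fac F hF) a (hRF haR) u hu v hv hae hue hve 0)
      exact ⟨g, h g hg⟩
    · exact h
  obtain ⟨g, hg⟩ := hex
  -- the labels of a vertex in two simplices agree
  have hv : ∀ v, v ∉ e → ∀ F ∈ 𝓕, ∀ F' ∈ 𝓕, v ∈ F → v ∈ F' → g F v = g F' v := by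
    intro v hve F hF F' hF' hvF hvF'
    have h1 : {v} ∈ K := hcx.2 F (hS.fac F hF).1 _ (singleton_subset_iff.2 hvF)
    have h3 := hfin {v} h1 F hF F' hF' (singleton_subset_iff.2 hvF) (singleton_subset_iff.2 hvF')
    induction h3 with
    | refl => rfl
    | tail _ h ih =>
      obtain ⟨hX, hY, R', hR', h5, h6, h7⟩ := h
      rw [← hg.gl R' hR' _ hX _ hY h6 h7 v (h5 (mem_singleton_self v)) hve]
      exact ih hX (h6 (h5 (mem_singleton_self v)))
  classical
  apply hC.nosec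
  refine ⟨fun v => if h : ∃ F ∈ 𝓕, v ∈ F then g h.choose v else 0, ?_⟩
  intro F hF u hu v hv' hue hve
  have hF' := hall F hF
  have hu' : ∃ F ∈ 𝓕, u ∈ F := ⟨F, hF', hu⟩
  have hv'' : ∃ F ∈ 𝓕, v ∈ F := ⟨F, hF', hv'⟩
  simp only [hu', hv'', dif_pos]
  rw [hv u hue _ hu'.choose_spec.1 F hF' hu'.choose_spec.2 hu,
    hv v hve _ hv''.choose_spec.1 F hF' hv''.choose_spec.2 hv']
  exact hg.fl F hF' u hu v hv' hue hve

end Pool.Agent.X161.CN
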