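import Pool.Agent.X161.CN.Lc
import Pool.Agent.X161.CN.Obs
import Pool.Agent.X161.CE.Inst
import Pool.Agent.Helper175.NS.Local
import Pool.Agent.H933R3.Bits

/-!
# A 3-ball with a knotted spanning edge that is not locally constructible
-/

set_option autoImplicit false

namespace Pool.Agent.X161.CN

open Finset Pool.Agent.H933R3 Pool.Agent.Helper175.NS Pool.Agent.X161.CE Pool.Agent.Y364.E3

/-- the masks of the 38 tetrahedra of the ball -/
def Bq : List ℕ := [15, 23, 75, 278, 329, 531, 579, 1038, 1068, 1073, 1136, 1185, 1192, 1286, 1316,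
  1345, 1376, 1409, 1410, 1553, 1601, 2061, 2092, 2200, 2209, 2216, 2242, 2256, 2313, 2322, 2328,
  2433, 2434, 2578, 2626, 3152, 3600, 3648]

def mvq : List (ℕ × ℕ) := [(3072, 592), (288, 68), (40, 3072), (2560, 82), (514, 81), (2112, 146),
  (1040, 544), (129, 288), (512, 97), (1025, 352), (160, 3328), (1056, 2112), (12, 1025), (6, 1040),
  (288, 2113), (384, 3074), (257, 2120), (258, 3088), (1088, 2308), (10, 1088), (1028, 257),
  (1152, 10), (1280, 2065), (2176, 26), (2050, 1048), (3072, 25), (257, 2068), (20, 257), (257, 20),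
  (2064, 257), (256, 12), (2112, 40), (2048, 37), (1040, 11), (18, 129), (40, 69), (128, 18),
  (80, 34), (1024, 74), (65, 6), (9, 22), (36, 65), (2, 80), (1, 36), (68, 40), (8, 68)]

theorem chq : chB Bq mvq 116 = true := by decide +kernel

/-- the complex -/
def K0 : Finset (Finset (Fin 12)) := cx 12 Bq

theorem isCx_K0 : IsCx K0 := isCx_cx (by decide)

theorem small_Bq : ∀ m ∈ Bq, m < 2 ^ 12 := by decide

theorem card_Bq : ∀ m ∈ Bq, (decF 12 m).card = 4 := by decide +kernel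

theorem facet_K0 {F : Finset (Fin 12)} : IsFacet K0 F ↔ ∃ m ∈ Bq, F = decF 12 m := by
  constructor
  · rintro ⟨h1, h2⟩
    obtain ⟨m, hm, h3⟩ := mem_cx.1 h1
    exact ⟨m, hm, (h2 _ (mem_cx.2 ⟨m, hm, Subset.refl _⟩) h3).symm⟩
  · rintro ⟨m, hm, rfl⟩
    refine ⟨mem_cx.2 ⟨m, hm, Subset.refl _⟩, fun G hG h => ?_⟩
    obtain ⟨m', hm', h3⟩ := mem_cx.1 hG
    have h4 : decF 12 m = decF 12 m' :=
      eq_of_subset_of_card_le (h.trans h3) (by rw [card_Bq m hm, card_Bq m' hm'])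
    exact Subset.antisymm (h4 ▸ h3) h

/-! ## the ball -/

def Gq : Finset (Finset (Fin 12)) := (Bq.map (decF 12)).toFinset

theorem mem_Gq {F : Finset (Fin 12)} : F ∈ Gq ↔ ∃ m ∈ Bq, decF 12 m = F := by
  rw [Gq, List.mem_toFinset, List.mem_map]

theorem image_de {m : ℕ} (hm : m < 2 ^ 12) : (decF 12 m).image Fin.val = de m := by
  ext k
  rw [mem_image, mem_de]
  constructor
  · rintro ⟨i, hi, rfl⟩
    have := i.2
    exact ⟨by omega, mem_decF.1 hi⟩
  · rintro ⟨-, hk⟩
    have h2 : k < 12 := by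
      by_contra hcon
      rw [Nat.testBit_eq_false_of_lt (hm.trans_le (Nat.pow_le_pow_right (by norm_num)
        (by omega)))] at hk
      exact absurd hk (by decide)
    exact ⟨⟨k, h2⟩, mem_decF.2 hk, rfl⟩

theorem Gq_image : Gq.image (fun F => F.image Fin.val) = deL Bq := by
  ext A
  rw [mem_image, mem_deL]
  constructor
  · rintro ⟨F, hF, rfl⟩
    obtain ⟨m, hm, rfl⟩ := mem_Gq.1 hF
    exact ⟨m, hm, (image_de (small_Bq m hm)).symm⟩
  · rintro ⟨m, hm, rfl⟩
    exact ⟨decF 12 m, mem_Gq.2 ⟨m, hm, rfl⟩, image_de (small_Bq m hm)⟩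

theorem Gq_ball : Nonempty (Sp Gq ≃ₜ Metric.closedBall (0 : EuclideanSpace ℝ (Fin 3)) 1) := by
  obtain ⟨e1⟩ := relabel_homeo Gq (Fin.val : Fin 12 → ℕ) univ (fun F _ => subset_univ F)
    (Fin.val_injective.injOn)
  rw [Gq_image] at e1
  obtain ⟨e2⟩ := ch_homeo mvq Bq 116 (by decide) chq
  obtain ⟨e3⟩ := simplex_ball (de 116) 3 (by rw [de_card]; decide)
  exact ⟨(e1.symm.trans e2).trans e3⟩

theorem realization_K0 : realization K0 = Sp Gq := by
  ext x
  constructor
  · rintro ⟨h0, h1, σ, hσ, h2⟩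
    obtain ⟨m, hm, h3⟩ := mem_cx.1 hσ
    refine ⟨h0, decF 12 m, mem_Gq.2 ⟨m, hm, rfl⟩, fun i hi => h2 i (fun h => hi (h3 h)), ?_⟩
    rw [← h1]
    exact sum_subset (subset_univ _) (fun i _ hi => h2 i (fun h => hi (h3 h)))
  · rintro ⟨h0, F, hF, h1, h2⟩
    obtain ⟨m, hm, rfl⟩ := mem_Gq.1 hF
    refine ⟨h0, ?_, decF 12 m, mem_cx.2 ⟨m, hm, Subset.refl _⟩, h1⟩
    rw [← h2]
    exact (sum_subset (subset_univ _) (fun i _ hi => h1 i hi)).symm

theorem isBall_K0 : H933R3.IsBall 3 K0 := by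
  unfold H933R3.IsBall
  rw [realization_K0]
  exact Gq_ball

/-! ## the bundle -/

/-- the knotted spanning edge -/
def eq0 : Finset (Fin 12) := {10, 11}

theorem mem_eq0 {i : Fin 12} : i ∈ eq0 ↔ ((i : ℕ) = 10 ∨ (i : ℕ) = 11) := by
  rw [eq0, mem_insert, mem_singleton, Fin.ext_iff, Fin.ext_iff]
  rfl

def psq (u v : Fin 12) (c : Fin 3) : Fin 3 := psi (u : ℕ) (v : ℕ) c

def sq (u : Fin 12) : Fin 3 := col 10 (u : ℕ)

def nq (u : Fin 12) : Prop := ¬ ((u : ℕ) = 10 ∨ (u : ℕ) = 11)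

instance : DecidablePred nq := fun u => by unfold nq; infer_instance

def GoodQ1 (l : List (Fin 12)) : Prop := ∀ u ∈ l, nq u → ∀ c, psq u u c = c

def GoodQ2 (l : List (Fin 12)) : Prop :=
  ∀ u ∈ l, nq u → ∀ v ∈ l, nq v → ∀ w ∈ l, nq w → ∀ c, psq v w (psq u v c) = psq u w c

def GoodQ3 (l : List (Fin 12)) : Prop :=
  (10 : Fin 12) ∈ l → (11 : Fin 12) ∈ l → ∀ u ∈ l, nq u → ∀ v ∈ l, nq v → psq u v (sq u) = sq v

instance (l : List (Fin 12)) : Decidable (GoodQ1 l) := by unfold GoodQ1; infer_instance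

instance (l : List (Fin 12)) : Decidable (GoodQ2 l) := by unfold GoodQ2; infer_instance

instance (l : List (Fin 12)) : Decidable (GoodQ3 l) := by unfold GoodQ3; infer_instance

def btF (m : ℕ) : List (Fin 12) := (List.finRange 12).filter (fun i => m.testBit i)

theorem mem_btF {m : ℕ} {i : Fin 12} : i ∈ btF m ↔ i ∈ decF 12 m := by
  rw [btF, List.mem_filter, mem_decF]
  simp

theorem goodq1 : ∀ m ∈ Bq, GoodQ1 (btF m) := by decide +kernel

theorem goodq2 : ∀ m ∈ Bq, GoodQ2 (btF m) := by decide +kernel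

theorem goodq3 : ∀ m ∈ Bq, GoodQ3 (btF m) := by decide +kernel

theorem threeq : ∀ m ∈ Bq, (10 : Fin 12) ∈ btF m → (11 : Fin 12) ∈ btF m →
    m = 3152 ∨ m = 3600 ∨ m = 3648 := by decide +kernel

theorem con0 : Con K0 eq0 psq sq := by
  have hn : ∀ i : Fin 12, i ∉ eq0 → nq i :=
    fun i hi h => hi (mem_eq0.2 h)
  have h10 : (10 : Fin 12) ∈ eq0 := by decide
  have h11 : (11 : Fin 12) ∈ eq0 := by decide
  refine ⟨?_, ?_, ?_, by decide, ?_, ?_⟩
  · intro F hF u hu v hv w hw hue hve hwe c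
    obtain ⟨m, hm, rfl⟩ := facet_K0.1 hF
    exact goodq2 m hm u (mem_btF.2 hu) (hn u hue) v (mem_btF.2 hv) (hn v hve) w
      (mem_btF.2 hw) (hn w hwe) c
  · intro F hF u hu hue c
    obtain ⟨m, hm, rfl⟩ := facet_K0.1 hF
    exact goodq1 m hm u (mem_btF.2 hu) (hn u hue) c
  · intro F hF he u hu v hv hue hve
    obtain ⟨m, hm, rfl⟩ := facet_K0.1 hF
    exact goodq3 m hm (mem_btF.2 (he h10)) (mem_btF.2 (he h11)) u (mem_btF.2 hu) (hn u hue) v
      (mem_btF.2 hv) (hn v hve)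
  · intro F F' R hF hF' hne heF heF' hR heR ⟨X, Y, hX, hY, hXY, hRX, hRY⟩
    have key : ∀ Z, IsFacet K0 Z → eq0 ⊆ Z → Z = decF 12 3152 ∨ Z = decF 12 3600 ∨
        Z = decF 12 3648 := by
      intro Z hZ heZ
      obtain ⟨m, hm, rfl⟩ := facet_K0.1 hZ
      rcases threeq m hm (mem_btF.2 (heZ h10)) (mem_btF.2 (heZ h11)) with rfl | rfl | rfl
      · exact Or.inl rfl
      · exact Or.inr (Or.inl rfl)
      · exact Or.inr (Or.inr rfl)
    have k1 := key F hF heF
    have k2 := key F' hF' heF'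
    have k3 := key X hX (heR.trans hRX)
    have k4 := key Y hY (heR.trans hRY)
    by_contra hcon
    rw [not_or] at hcon
    obtain ⟨c1, c2⟩ := hcon
    have d1 : X ≠ F := fun h => c1 (h ▸ hRX)
    have d2 : X ≠ F' := fun h => c2 (h ▸ hRX)
    have d3 : Y ≠ F := fun h => c1 (h ▸ hRY)
    have d4 : Y ≠ F' := fun h => c2 (h ▸ hRY)
    rcases k1 with k1 | k1 | k1 <;> rcases k2 with k2 | k2 | k2 <;>
      rcases k3 with k3 | k3 | k3 <;> rcases k4 with k4 | k4 | k4 <;>
      first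
        | exact hne (k1.trans k2.symm)
        | exact hXY (k3.trans k4.symm)
        | exact d1 (k3.trans k1.symm)
        | exact d2 (k3.trans k2.symm)
        | exact d3 (k4.trans k1.symm)
        | exact d4 (k4.trans k2.symm)
  · rintro ⟨g, hg⟩
    have key : ∀ m ∈ Bq, ∀ u ∈ decF 12 m, ∀ v ∈ decF 12 m, u ∉ eq0 → v ∉ eq0 →
        psq u v (g u) = g v := fun m hm => hg _ (facet_K0.2 ⟨m, hm, rfl⟩)
    have h1 := key 23 (by decide) 0 (by decide) 1 (by decide) (by decide) (by decide)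
    have h2 := key 23 (by decide) 0 (by decide) 2 (by decide) (by decide) (by decide)
    have h3 := key 1068 (by decide) 2 (by decide) 5 (by decide) (by decide) (by decide)
    have h5 := key 2242 (by decide) 1 (by decide) 7 (by decide) (by decide) (by decide)
    have h6 := key 1073 (by decide) 0 (by decide) 5 (by decide) (by decide) (by decide)
    have h7 := key 1185 (by decide) 5 (by decide) 7 (by decide) (by decide) (by decide)
    generalize g 0 = a0 at *
    generalize g 1 = a1 at *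
    generalize g 2 = a2 at *
    generalize g 5 = a5 at *
    generalize g 7 = a7 at *
    revert a0 a1 a2 a5 a7
    decide

/-- the ball `K0` is not locally constructible -/
theorem not_lc_K0 : ¬ IsTreeLC 3 K0 := not_lc con0 isCx_K0

/-- the iterated cones over `K0` -/
theorem iterated (k : ℕ) : ∃ K : Finset (Finset (Fin (12 + k))),
    IsCx K ∧ H933R3.IsBall (3 + k) K ∧ (0 < k → NonEvasive K) ∧ ¬ IsTreeLC (3 + k) K := by
  induction k with
  | zero => exact ⟨K0, isCx_K0, isBall_K0, fun h => absurd h (lt_irrefl 0), not_lc_K0⟩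
  | succ k ih =>
    obtain ⟨K, h1, h2, h3, h4⟩ := ih
    exact ⟨cone K, isCx_cone h1, isBall_cone h2, fun _ => nonEvasive_cone h1,
      fun h => h4 (isTreeLC_of_cone h)⟩

end Pool.Agent.X161.CN
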