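import Pool.Agent.Y857.LB.Ball
import Pool.Agent.Y364.E3.Tree

/-!
# Cones: the cone over a triangulated ball is a triangulated ball
-/

set_option autoImplicit false

namespace Pool.Agent.X161.CN

open Finset Pool.Agent.H933R3 Pool.Agent.Y857.LB

/-- the vertex map into the cone -/
def us (n : ℕ) : Fin n ↪ Fin (n + 1) := ⟨Fin.succ, Fin.succ_injective n⟩

/-- a face of `K` with the apex added -/
def ap {n : ℕ} (F : Finset (Fin n)) : Finset (Fin (n + 1)) := insert 0 (F.map (us n))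

/-- the cone over `K`, with apex `0` -/
def cone {n : ℕ} (K : Finset (Finset (Fin n))) : Finset (Finset (Fin (n + 1))) :=
  K.image (fun F => F.map (us n)) ∪ K.image ap

variable {n : ℕ}

theorem mem_cone {K : Finset (Finset (Fin n))} {s : Finset (Fin (n + 1))} :
    s ∈ cone K ↔ ∃ F ∈ K, F.map (us n) = s ∨ ap F = s := by
  simp only [cone, mem_union, mem_image]
  constructor
  · rintro (⟨F, h1, h2⟩ | ⟨F, h1, h2⟩)
    · exact ⟨F, h1, Or.inl h2⟩
    · exact ⟨F, h1, Or.inr h2⟩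
  · rintro ⟨F, h1, h2 | h2⟩
    · exact Or.inl ⟨F, h1, h2⟩
    · exact Or.inr ⟨F, h1, h2⟩

theorem zero_notMem (F : Finset (Fin n)) : (0 : Fin (n + 1)) ∉ F.map (us n) := by
  rw [mem_map]
  rintro ⟨i, _, h⟩
  exact Fin.succ_ne_zero i h

theorem succ_mem {F : Finset (Fin n)} {i : Fin n} : i.succ ∈ F.map (us n) ↔ i ∈ F :=
  mem_map' (us n)

theorem succ_mem_ap {F : Finset (Fin n)} {i : Fin n} : i.succ ∈ ap F ↔ i ∈ F := by
  rw [ap, mem_insert, succ_mem]
  exact ⟨fun h => h.resolve_left (Fin.succ_ne_zero i), Or.inr⟩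

theorem zero_mem_ap (F : Finset (Fin n)) : (0 : Fin (n + 1)) ∈ ap F := mem_insert_self _ _

/-- the part of the cone over the ball -/
def D (d : ℕ) : Set (EuclideanSpace ℝ (Fin d) × ℝ) := {p | ‖p.1‖ + p.2 ≤ 1 ∧ 0 ≤ p.2}

theorem D_convex (d : ℕ) : Convex ℝ (D d) := by
  intro p hp q hq s t hs ht hst
  obtain ⟨hp1, hp2⟩ := hp
  obtain ⟨hq1, hq2⟩ := hq
  refine ⟨?_, ?_⟩
  · show ‖s • p.1 + t • q.1‖ + (s • p.2 + t • q.2) ≤ 1
    have h1 : ‖s • p.1 + t • q.1‖ ≤ s * ‖p.1‖ + t * ‖q.1‖ := by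
      refine (norm_add_le _ _).trans ?_
      rw [norm_smul, norm_smul, Real.norm_of_nonneg hs, Real.norm_of_nonneg ht]
    rw [smul_eq_mul, smul_eq_mul]
    nlinarith
  · show 0 ≤ s • p.2 + t • q.2
    rw [smul_eq_mul, smul_eq_mul]
    positivity

theorem D_closed (d : ℕ) : IsClosed (D d) := by
  have h1 : IsClosed {p : EuclideanSpace ℝ (Fin d) × ℝ | ‖p.1‖ + p.2 ≤ 1} :=
    isClosed_le (by fun_prop) (by fun_prop)
  have h2 : IsClosed {p : EuclideanSpace ℝ (Fin d) × ℝ | 0 ≤ p.2} :=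
    isClosed_le (by fun_prop) (by fun_prop)
  exact h1.inter h2

theorem D_bounded (d : ℕ) : Bornology.IsBounded (D d) := by
  apply Metric.isBounded_closedBall (x := (0 : EuclideanSpace ℝ (Fin d) × ℝ)) (r := 1) |>.subset
  rintro p ⟨h1, h2⟩
  rw [mem_closedBall_zero_iff, Prod.norm_def]
  apply max_le
  · linarith
  · rw [Real.norm_eq_abs, abs_of_nonneg h2]
    have := norm_nonneg p.1
    linarith

theorem D_int (d : ℕ) : (interior (D d)).Nonempty := by
  refine ⟨(0, 1 / 2), ?_⟩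
  have ho : IsOpen {p : EuclideanSpace ℝ (Fin d) × ℝ | ‖p.1‖ + p.2 < 1 ∧ 0 < p.2} := by
    have h1 : IsOpen {p : EuclideanSpace ℝ (Fin d) × ℝ | ‖p.1‖ + p.2 < 1} :=
      isOpen_lt (by fun_prop) (by fun_prop)
    have h2 : IsOpen {p : EuclideanSpace ℝ (Fin d) × ℝ | 0 < p.2} :=
      isOpen_lt (by fun_prop) (by fun_prop)
    exact h1.inter h2
  refine interior_maximal (fun p hp => ?_) ho ?_
  · obtain ⟨h1, h2⟩ : ‖p.1‖ + p.2 < 1 ∧ 0 < p.2 := hp
    exact ⟨h1.le, h2.le⟩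
  refine ⟨?_, ?_⟩
  · show ‖(0 : EuclideanSpace ℝ (Fin d))‖ + (1 / 2 : ℝ) < 1
    rw [norm_zero]
    norm_num
  · show (0 : ℝ) < 1 / 2
    norm_num

theorem D_ball (d : ℕ) :
    Nonempty (D d ≃ₜ Metric.closedBall (0 : EuclideanSpace ℝ (Fin (d + 1))) 1) := by
  let e : (EuclideanSpace ℝ (Fin d) × ℝ) ≃L[ℝ] EuclideanSpace ℝ (Fin (d + 1)) :=
    ContinuousLinearEquiv.ofFinrankEq (by simp)
  have hc : Convex ℝ (e.symm ⁻¹' (D d)) := (D_convex d).linear_preimage e.symm.toLinearMap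
  have hcl : IsClosed (e.symm ⁻¹' (D d)) := (D_closed d).preimage e.symm.continuous
  have hint : (interior (e.symm ⁻¹' (D d))).Nonempty := by
    have : interior (e.symm ⁻¹' (D d)) = e.symm ⁻¹' interior (D d) :=
      (e.symm.toHomeomorph.preimage_interior (D d)).symm
    rw [this]
    obtain ⟨x, hx⟩ := D_int d
    refine ⟨e x, ?_⟩
    show e.symm (e x) ∈ interior (D d)
    rw [ContinuousLinearEquiv.symm_apply_apply]
    exact hx
  have himg : e.symm ⁻¹' (D d) = e '' (D d) := by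
    ext x
    constructor
    · intro hx
      exact ⟨e.symm x, hx, by simp⟩
    · rintro ⟨y, hy, rfl⟩
      show e.symm (e y) ∈ D d
      rw [ContinuousLinearEquiv.symm_apply_apply]
      exact hy
  have hb : Bornology.IsBounded (e.symm ⁻¹' (D d)) := by
    rw [himg]
    exact e.lipschitz.isBounded_image (D_bounded d)
  obtain ⟨h, -, h2, -⟩ := exists_homeomorph_image_interior_closure_frontier_eq_unitBall hc hint hb
  rw [hcl.closure_eq, himg] at h2
  exact ⟨((e.toHomeomorph.image (D d)).trans (h.image (e '' D d))).trans (Homeomorph.setCongr h2)⟩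

/-- the map onto the realization of the cone -/
noncomputable def q1 (x : Fin n → ℝ) (r : ℝ) : Fin (n + 1) → ℝ :=
  Fin.cons r (fun i => (1 - r) * x i)

theorem q1_zero (x : Fin n → ℝ) (r : ℝ) : q1 x r 0 = r := rfl

theorem q1_up (x : Fin n → ℝ) (r : ℝ) (i : Fin n) : q1 x r i.succ = (1 - r) * x i := rfl

variable {d : ℕ} {K : Finset (Finset (Fin n))}

theorem q1_mem {x : Fin n → ℝ} (hx : x ∈ realization K) {r : ℝ} (hr : r ∈ Set.Icc (0 : ℝ) 1) :
    q1 x r ∈ realization (cone K) := by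
  obtain ⟨h0, h1, σ, hσ, h2⟩ := hx
  obtain ⟨hr0, hr1⟩ := hr
  refine ⟨?_, ?_, ap σ, mem_cone.2 ⟨σ, hσ, Or.inr rfl⟩, ?_⟩
  · intro i
    refine Fin.cases ?_ (fun i => ?_) i
    · rw [q1_zero]; exact hr0
    · rw [q1_up]; exact mul_nonneg (by linarith) (h0 i)
  · rw [Fin.sum_univ_succ, q1_zero]
    have : ∑ i : Fin n, q1 x r i.succ = (1 - r) * ∑ i, x i := by
      rw [mul_sum]
      exact sum_congr rfl fun i _ => q1_up x r i
    rw [this, h1]
    ring
  · intro i
    refine Fin.cases ?_ (fun i => ?_) i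
    · intro hi
      exact absurd (zero_mem_ap σ) hi
    · intro hi
      rw [succ_mem_ap] at hi
      rw [q1_up, h2 i hi, mul_zero]

theorem q1_surj {y : Fin (n + 1) → ℝ} (hy : y ∈ realization (cone K)) :
    ∃ r : ℝ, r ∈ Set.Icc (0 : ℝ) 1 ∧ (r = 1 → ∀ x, q1 x r = y) ∧
      (r ≠ 1 → ∃ x ∈ realization K, q1 x r = y) := by
  obtain ⟨h0, h1, s, hs, h2⟩ := hy
  rw [Fin.sum_univ_succ] at h1
  have hS : 0 ≤ ∑ i : Fin n, y i.succ := sum_nonneg fun i _ => h0 _
  obtain ⟨σ, hσ, hσs⟩ : ∃ σ ∈ K, ∀ i : Fin n, i ∉ σ → y i.succ = 0 := by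
    obtain ⟨σ, hσ, rfl | rfl⟩ := mem_cone.1 hs
    · exact ⟨σ, hσ, fun i hi => h2 _ (fun h => hi (succ_mem.1 h))⟩
    · exact ⟨σ, hσ, fun i hi => h2 _ (fun h => hi (succ_mem_ap.1 h))⟩
  refine ⟨y 0, ⟨h0 0, by linarith⟩, ?_, ?_⟩
  · intro hr x
    have hz : ∑ i : Fin n, y i.succ = 0 := by linarith
    have hz' := (sum_eq_zero_iff_of_nonneg fun (i : Fin n) _ => h0 i.succ).1 hz
    funext i
    refine Fin.cases ?_ (fun i => ?_) i
    · rw [q1_zero]
    · rw [q1_up, hr, hz' i (mem_univ _)]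
      ring
  · intro hr
    have hlt : 0 < 1 - y 0 := by
      have h3 : y 0 ≤ 1 := by linarith
      have := lt_of_le_of_ne h3 hr
      linarith
    refine ⟨fun i => y i.succ / (1 - y 0), ⟨?_, ?_, σ, hσ, ?_⟩, ?_⟩
    · intro i
      exact div_nonneg (h0 _) hlt.le
    · rw [← sum_div, div_eq_one_iff_eq hlt.ne']
      linarith
    · intro i hi
      show y i.succ / _ = 0
      rw [hσs i hi, zero_div]
    · funext i
      refine Fin.cases ?_ (fun i => ?_) i
      · rw [q1_zero]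
      · rw [q1_up]
        field_simp

theorem q1_eq_iff {x x' : Fin n → ℝ} {r r' : ℝ} :
    q1 x r = q1 x' r' ↔ r = r' ∧ (r = 1 ∨ x = x') := by
  constructor
  · intro h
    have hr : r = r' := congrFun h 0
    refine ⟨hr, ?_⟩
    subst hr
    by_cases h2 : r = 1
    · exact Or.inl h2
    · right
      have h3 : 1 - r ≠ 0 := fun h4 => h2 (by linarith)
      funext i
      exact mul_left_cancel₀ h3 (congrFun h i.succ)
  · rintro ⟨rfl, h | rfl⟩
    · funext i
      refine Fin.cases rfl (fun i => ?_) i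
      rw [q1_up, q1_up, h]
      ring
    · rfl

theorem isBall_cone (hK : IsBall d K) : IsBall (d + 1) (cone K) := by
  obtain ⟨h⟩ := hK
  have : CompactSpace (Metric.closedBall (0 : EuclideanSpace ℝ (Fin d)) 1) :=
    isCompact_iff_compactSpace.1 (isCompact_closedBall 0 1)
  let P := Metric.closedBall (0 : EuclideanSpace ℝ (Fin d)) 1 × Set.Icc (0 : ℝ) 1
  let Q1 : P → realization (cone K) := fun p => ⟨q1 (h.symm p.1).1 p.2.1, q1_mem (h.symm p.1).2 p.2.2⟩
  let Q2 : P → D d := fun p => ⟨((1 - p.2.1) • p.1.1, p.2.1), by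
    have h1 : p.2.1 ≤ 1 := p.2.2.2
    have h2 : ‖(p.1.1 : EuclideanSpace ℝ (Fin d))‖ ≤ 1 := mem_closedBall_zero_iff.1 p.1.2
    refine ⟨?_, p.2.2.1⟩
    show ‖(1 - p.2.1) • (p.1.1 : EuclideanSpace ℝ (Fin d))‖ + p.2.1 ≤ 1
    rw [norm_smul, Real.norm_of_nonneg (by linarith)]
    nlinarith [norm_nonneg (p.1.1 : EuclideanSpace ℝ (Fin d))]⟩
  have c1 : Continuous Q1 := by
    apply Continuous.subtype_mk
    apply continuous_pi
    intro i
    have hr : Continuous fun p : P => (p.2.1 : ℝ) := continuous_subtype_val.comp continuous_snd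
    have hx : ∀ j : Fin n, Continuous fun p : P => (h.symm p.1).1 j := fun j =>
      (continuous_apply j).comp (continuous_subtype_val.comp (h.symm.continuous.comp continuous_fst))
    refine Fin.cases ?_ (fun i => ?_) i
    · exact hr
    · show Continuous fun p : P => (1 - p.2.1) * (h.symm p.1).1 i
      exact (continuous_const.sub hr).mul (hx i)
  have c2 : Continuous Q2 := by
    apply Continuous.subtype_mk
    have hr : Continuous fun p : P => (p.2.1 : ℝ) := continuous_subtype_val.comp continuous_snd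
    have hx : Continuous fun p : P => (p.1.1 : EuclideanSpace ℝ (Fin d)) :=
      continuous_subtype_val.comp continuous_fst
    exact ((continuous_const.sub hr).smul hx).prodMk hr
  have s1 : Function.Surjective Q1 := by
    rintro ⟨y, hy⟩
    obtain ⟨r, hr, h1, h2⟩ := q1_surj hy
    by_cases hr1 : r = 1
    · refine ⟨(⟨0, by simp⟩, ⟨r, hr⟩), ?_⟩
      exact Subtype.ext (h1 hr1 _)
    · obtain ⟨x, hx, hxy⟩ := h2 hr1
      refine ⟨(h ⟨x, hx⟩, ⟨r, hr⟩), ?_⟩
      apply Subtype.ext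
      show q1 (h.symm (h ⟨x, hx⟩)).1 r = y
      rw [h.symm_apply_apply]
      exact hxy
  have s2 : Function.Surjective Q2 := by
    rintro ⟨⟨z, r⟩, hz⟩
    obtain ⟨hz', hr0⟩ : ‖z‖ + r ≤ 1 ∧ 0 ≤ r := hz
    have hr : r ≤ 1 := by linarith [norm_nonneg z]
    by_cases hr1 : r = 1
    · refine ⟨(⟨0, by simp⟩, ⟨r, hr0, hr⟩), ?_⟩
      apply Subtype.ext
      have hz0 : z = 0 := by
        rw [hr1] at hz'
        exact norm_eq_zero.1 (le_antisymm (by linarith) (norm_nonneg z))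
      show ((1 - r) • (0 : EuclideanSpace ℝ (Fin d)), r) = (z, r)
      rw [smul_zero, hz0]
    · have hlt : 0 < 1 - r := by
        have := lt_of_le_of_ne hr hr1
        linarith
      refine ⟨(⟨(1 - r)⁻¹ • z, ?_⟩, ⟨r, hr0, hr⟩), ?_⟩
      · rw [mem_closedBall_zero_iff, norm_smul, norm_inv, Real.norm_of_nonneg hlt.le,
          inv_mul_le_iff₀ hlt]
        linarith
      · apply Subtype.ext
        show ((1 - r) • ((1 - r)⁻¹ • z), r) = (z, r)
        rw [smul_inv_smul₀ hlt.ne']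
  have hk : ∀ p p', Q1 p = Q1 p' ↔ Q2 p = Q2 p' := by
    rintro ⟨z, r⟩ ⟨z', r'⟩
    have e1 : Q1 (z, r) = Q1 (z', r') ↔ r.1 = r'.1 ∧ (r.1 = 1 ∨ z = z') := by
      rw [Subtype.ext_iff]
      show q1 (h.symm z).1 r.1 = q1 (h.symm z').1 r'.1 ↔ _
      rw [q1_eq_iff]
      have e3 : (h.symm z).1 = (h.symm z').1 ↔ z = z' :=
        Subtype.ext_iff.symm.trans h.symm.injective.eq_iff
      rw [e3]
    have e2 : Q2 (z, r) = Q2 (z', r') ↔ r.1 = r'.1 ∧ (r.1 = 1 ∨ z = z') := by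
      rw [Subtype.ext_iff]
      show ((1 - r.1) • z.1, r.1) = ((1 - r'.1) • z'.1, r'.1) ↔ _
      rw [Prod.mk.injEq]
      constructor
      · rintro ⟨h1, h2⟩
        refine ⟨h2, ?_⟩
        rw [← h2] at h1
        by_cases h3 : r.1 = 1
        · exact Or.inl h3
        · right
          have h4 : 1 - r.1 ≠ 0 := fun h5 => h3 (by linarith)
          exact Subtype.ext (smul_right_injective _ h4 h1)
      · rintro ⟨h1, h2 | h2⟩
        · refine ⟨?_, h1⟩
          rw [← h1, h2, sub_self, zero_smul, zero_smul]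
        · rw [h2, h1]
          exact ⟨rfl, rfl⟩
    rw [e1, e2]
  obtain ⟨e⟩ := homeo_of_ker Q1 Q2 c1 c2 s1 s2 hk
  obtain ⟨e'⟩ := D_ball d
  exact ⟨e.trans e'⟩

end Pool.Agent.X161.CN
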