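import Pool.Agent.X161.CN.Ball

/-!
# Cones: non-evasiveness and local constructions
-/

set_option autoImplicit false

namespace Pool.Agent.X161.CN

open Finset Pool.Agent.H933R3 Pool.Agent.Y364.E3

theorem nonEvasive_of_apex {V : Type} [DecidableEq V] (a : V) : ∀ (k : ℕ) (C : Finset (Finset V)),
    C.card ≤ k → IsCx C → (∀ σ ∈ C, insert a σ ∈ C) → NonEvasive C := by
  intro k
  induction k with
  | zero =>
    intro C hk hC _
    have := hC.1
    rw [Nat.le_zero, card_eq_zero] at hk
    rw [hk] at this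
    exact absurd this (notMem_empty _)
  | succ k ih =>
    intro C hk hC hap
    by_cases h : ∃ w, w ≠ a ∧ {w} ∈ C
    · obtain ⟨w, hwa, hw⟩ := h
      refine NonEvasive.step C w hw (ih _ ?_ ?_ ?_) (ih _ ?_ ?_ ?_)
      · have h1 : del C w ⊂ C := by
          refine ⟨filter_subset _ _, fun h2 => ?_⟩
          have h3 := h2 hw
          rw [del, mem_filter] at h3
          exact h3.2 (mem_singleton_self w)
        have := card_lt_card h1
        omega
      · refine ⟨mem_filter.2 ⟨hC.1, notMem_empty _⟩, fun σ hσ τ hτ => ?_⟩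
        rw [del, mem_filter] at hσ ⊢
        exact ⟨hC.2 σ hσ.1 τ hτ, fun h2 => hσ.2 (hτ h2)⟩
      · intro σ hσ
        rw [del, mem_filter] at hσ ⊢
        refine ⟨hap σ hσ.1, fun h2 => ?_⟩
        rw [mem_insert] at h2
        exact h2.elim hwa hσ.2
      · have h1 : link C w ⊂ C := by
          refine ⟨filter_subset _ _, fun h2 => ?_⟩
          have h3 := h2 hw
          rw [link, mem_filter] at h3
          exact h3.2.1 (mem_singleton_self w)
        have := card_lt_card h1
        omega
      · refine ⟨mem_filter.2 ⟨hC.1, notMem_empty _, by simpa using hw⟩, fun σ hσ τ hτ => ?_⟩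
        rw [link, mem_filter] at hσ ⊢
        exact ⟨hC.2 σ hσ.1 τ hτ, fun h2 => hσ.2.1 (hτ h2),
          hC.2 _ hσ.2.2 _ (insert_subset_insert w hτ)⟩
      · intro σ hσ
        rw [link, mem_filter] at hσ ⊢
        refine ⟨hap σ hσ.1, fun h2 => ?_, ?_⟩
        · rw [mem_insert] at h2
          exact h2.elim hwa hσ.2.1
        · rw [insert_comm]
          exact hap _ hσ.2.2
    · have hsub : ∀ σ ∈ C, ∀ x ∈ σ, x = a := by
        intro σ hσ x hx
        by_contra hne
        exact h ⟨x, hne, hC.2 σ hσ _ (singleton_subset_iff.2 hx)⟩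
      have hCe : C = {∅, {a}} := by
        ext σ
        rw [mem_insert, mem_singleton]
        constructor
        · intro hσ
          rcases σ.eq_empty_or_nonempty with h1 | ⟨x, hx⟩
          · exact Or.inl h1
          · right
            have hxa := hsub σ hσ x hx
            subst hxa
            ext y
            rw [mem_singleton]
            exact ⟨fun hy => hsub σ hσ y hy, fun hy => hy ▸ hx⟩
        · rintro (rfl | rfl)
          · exact hC.1
          · have := hap ∅ hC.1
            simpa using this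
      rw [hCe]
      exact NonEvasive.point a

variable {n d : ℕ} {K : Finset (Finset (Fin n))}

theorem isCx_cone (hK : IsCx K) : IsCx (cone K) := by
  refine ⟨mem_cone.2 ⟨∅, hK.1, Or.inl (map_empty _)⟩, fun s hs t ht => ?_⟩
  obtain ⟨F, hF, h⟩ := mem_cone.1 hs
  obtain ⟨G, hG⟩ : ∃ G : Finset (Fin n), G = univ.filter (fun i => i.succ ∈ t) := ⟨_, rfl⟩
  have hG' : ∀ i, i ∈ G ↔ i.succ ∈ t := by
    intro i
    rw [hG, mem_filter]
    simp
  have hGF : G ⊆ F := by
    intro i hi
    have h1 := ht ((hG' i).1 hi)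
    rcases h with rfl | rfl
    · exact succ_mem.1 h1
    · exact succ_mem_ap.1 h1
  refine mem_cone.2 ⟨G, hK.2 F hF G hGF, ?_⟩
  by_cases h0 : (0 : Fin (n + 1)) ∈ t
  · right
    ext x
    refine Fin.cases ?_ (fun i => ?_) x
    · exact ⟨fun _ => h0, fun _ => zero_mem_ap G⟩
    · rw [succ_mem_ap, hG']
  · left
    ext x
    refine Fin.cases ?_ (fun i => ?_) x
    · exact ⟨fun h1 => absurd h1 (zero_notMem G), fun h1 => absurd h1 h0⟩
    · rw [succ_mem, hG']

theorem nonEvasive_cone (hK : IsCx K) : NonEvasive (cone K) := by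
  refine nonEvasive_of_apex 0 _ (cone K) le_rfl (isCx_cone hK) ?_
  intro σ hσ
  obtain ⟨F, hF, h⟩ := mem_cone.1 hσ
  refine mem_cone.2 ⟨F, hF, Or.inr ?_⟩
  rcases h with rfl | rfl
  · rfl
  · rw [ap, insert_idem]

/-- the trace on the base -/
def dn (s : Finset (Fin (n + 1))) : Finset (Fin n) := univ.filter (fun i => i.succ ∈ s)

theorem mem_dn {s : Finset (Fin (n + 1))} {i : Fin n} : i ∈ dn s ↔ i.succ ∈ s := by
  simp [dn]

theorem dn_ap (F : Finset (Fin n)) : dn (ap F) = F := by
  ext i
  rw [mem_dn, succ_mem_ap]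

theorem ap_dn {s : Finset (Fin (n + 1))} (h : 0 ∈ s) : ap (dn s) = s := by
  ext x
  refine Fin.cases ?_ (fun i => ?_) x
  · exact ⟨fun _ => h, fun _ => zero_mem_ap _⟩
  · rw [succ_mem_ap, mem_dn]

theorem ap_inj {F G : Finset (Fin n)} (h : ap F = ap G) : F = G := by
  rw [← dn_ap F, h, dn_ap]

theorem ap_subset {F G : Finset (Fin n)} : ap F ⊆ ap G ↔ F ⊆ G := by
  constructor
  · intro h i hi
    exact succ_mem_ap.1 (h (succ_mem_ap.2 hi))
  · intro h x
    refine Fin.cases ?_ (fun i => ?_) x
    · exact fun _ => zero_mem_ap _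
    · rw [succ_mem_ap, succ_mem_ap]
      exact fun hi => h hi

theorem dn_mono {s t : Finset (Fin (n + 1))} (h : s ⊆ t) : dn s ⊆ dn t := by
  intro i hi
  rw [mem_dn] at hi ⊢
  exact h hi

theorem card_ap (F : Finset (Fin n)) : (ap F).card = F.card + 1 := by
  rw [ap, card_insert_of_notMem (zero_notMem F), card_map]

theorem ap_mem {F : Finset (Fin n)} : ap F ∈ cone K ↔ F ∈ K := by
  rw [mem_cone]
  constructor
  · rintro ⟨G, hG, h | h⟩
    · have := zero_mem_ap F
      rw [← h] at this
      exact absurd this (zero_notMem G)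
    · rw [← ap_inj h]
      exact hG
  · exact fun h => ⟨F, h, Or.inr rfl⟩

theorem facet_cone {s : Finset (Fin (n + 1))} :
    IsFacet (cone K) s ↔ ∃ F, IsFacet K F ∧ ap F = s := by
  constructor
  · rintro ⟨h1, h2⟩
    obtain ⟨F, hF, h⟩ := mem_cone.1 h1
    have hs : s = ap F := by
      rcases h with rfl | rfl
      · exact (h2 (ap F) (ap_mem.2 hF) (subset_insert _ _)).symm
      · rfl
    refine ⟨F, ⟨hF, fun G hG hFG => ?_⟩, hs.symm⟩
    have := h2 (ap G) (ap_mem.2 hG) (by rw [hs]; exact ap_subset.2 hFG)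
    rw [hs] at this
    exact ap_inj this
  · rintro ⟨F, ⟨h1, h2⟩, rfl⟩
    refine ⟨ap_mem.2 h1, fun t ht h3 => ?_⟩
    obtain ⟨G, hG, h⟩ := mem_cone.1 ht
    rcases h with rfl | rfl
    · exact absurd (h3 (zero_mem_ap F)) (zero_notMem G)
    · rw [h2 G hG (ap_subset.1 h3)]

/-- all members are facets of the cone, all gluing faces contain the apex -/
structure Inv (K : Finset (Finset (Fin n))) (d : ℕ) (𝓕 G : Finset (Finset (Fin (n + 1)))) :
    Prop where
  fac : ∀ F ∈ 𝓕, IsFacet (cone K) F
  zero : ∀ R ∈ G, 0 ∈ R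

theorem zero_facet {F : Finset (Fin (n + 1))} (h : IsFacet (cone K) F) : 0 ∈ F := by
  obtain ⟨G, -, rfl⟩ := facet_cone.1 h
  exact zero_mem_ap G

theorem zero_ridge (hc : ∀ F, IsFacet (cone K) F → F.card = d + 2)
    {F F' R : Finset (Fin (n + 1))} (h1 : IsFacet (cone K) F) (h2 : IsFacet (cone K) F')
    (hne : F ≠ F') (hR : R.card = d + 1) (h3 : R ⊆ F) (h4 : R ⊆ F') : 0 ∈ R := by
  have h5 : R = F ∩ F' := by
    apply eq_of_subset_of_card_le (subset_inter h3 h4)
    have h6 : F ∩ F' ⊂ F := by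
      refine ⟨inter_subset_left, fun h => ?_⟩
      have h7 : F ⊆ F' := fun x hx => (mem_inter.1 (h hx)).2
      exact hne (h1.2 F' h2.1 h7).symm
    have := card_lt_card h6
    rw [hc F h1] at this
    omega
  rw [h5, mem_inter]
  exact ⟨zero_facet h1, zero_facet h2⟩

theorem image_notMem {G : Finset (Finset (Fin (n + 1)))} {R : Finset (Fin (n + 1))}
    (h0 : ∀ X ∈ G, (0 : Fin (n + 1)) ∈ X) (hR : 0 ∈ R) (h : R ∉ G) : dn R ∉ G.image dn := by
  rw [mem_image]
  rintro ⟨X, hX, h1⟩
  apply h
  rw [← ap_dn hR, ← h1, ap_dn (h0 X hX)]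
  exact hX

theorem card_dn {s : Finset (Fin (n + 1))} (h : 0 ∈ s) : (dn s).card + 1 = s.card := by
  rw [← card_ap, ap_dn h]

theorem facet_dn {F : Finset (Fin (n + 1))} (h : IsFacet (cone K) F) : IsFacet K (dn F) := by
  obtain ⟨G, hG, rfl⟩ := facet_cone.1 h
  rw [dn_ap]
  exact hG

theorem tree_dn (hc : ∀ F, IsFacet (cone K) F → F.card = d + 2)
    {𝓕 T : Finset (Finset (Fin (n + 1)))} (h : TreeStage (d + 1) (cone K) 𝓕 T) :
    Inv K d 𝓕 T ∧ TreeStage d K (𝓕.image dn) (T.image dn) := by
  induction h with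
  | start F hF =>
    refine ⟨⟨?_, fun R hR => absurd hR (notMem_empty _)⟩, ?_⟩
    · intro X hX
      rw [mem_singleton.1 hX]
      exact hF
    · rw [image_singleton, image_empty]
      exact TreeStage.start _ (facet_dn hF)
  | attach 𝓕 T F F' R h hF hF' hn hR h1 h2 hT ih =>
    obtain ⟨hI, hS⟩ := ih
    have hne : F ≠ F' := fun e => hn (e ▸ hF)
    have h0 := zero_ridge hc (hI.fac F hF) hF' hne hR h1 h2
    refine ⟨⟨?_, ?_⟩, ?_⟩
    · intro X hX
      rcases mem_insert.1 hX with rfl | hX
      · exact hF'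
      · exact hI.fac X hX
    · intro X hX
      rcases mem_insert.1 hX with rfl | hX
      · exact h0
      · exact hI.zero X hX
    · rw [image_insert, image_insert]
      refine TreeStage.attach _ _ (dn F) (dn F') (dn R) hS (mem_image_of_mem _ hF) (facet_dn hF')
        (image_notMem (fun X hX => zero_facet (hI.fac X hX)) (zero_facet hF') hn) ?_
        (dn_mono h1) (dn_mono h2) (image_notMem hI.zero h0 hT)
      have := card_dn h0
      omega

theorem same_dn {𝓕 G : Finset (Finset (Fin (n + 1)))} {A F F' : Finset (Fin (n + 1))}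
    (h : SameFace 𝓕 G A F F') :
    SameFace (𝓕.image dn) (G.image dn) (dn A) (dn F) (dn F') := by
  induction h with
  | refl => exact Relation.ReflTransGen.refl
  | tail _ h ih =>
    obtain ⟨hX, hY, R, hR, h1, h2, h3⟩ := h
    exact ih.tail ⟨mem_image_of_mem _ hX, mem_image_of_mem _ hY, dn R, mem_image_of_mem _ hR,
      dn_mono h1, dn_mono h2, dn_mono h3⟩

theorem glue_dn (hc : ∀ F, IsFacet (cone K) F → F.card = d + 2)
    {𝓕 T G : Finset (Finset (Fin (n + 1)))} (hI : Inv K d 𝓕 T)
    (hT : ∀ R ∈ T, R.card = d + 1)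
    (h : GlueStage (d + 1) 𝓕 T G) :
    (∀ R ∈ G, 0 ∈ R) ∧ (∀ R ∈ G, R.card = d + 1) ∧
      GlueStage d (𝓕.image dn) (T.image dn) (G.image dn) := by
  induction h with
  | start => exact ⟨hI.zero, hT, GlueStage.start⟩
  | glue G F F' R A h hF hF' hne hR h1 h2 hG hA hAR hs ih =>
    obtain ⟨i1, i2, i3⟩ := ih
    have h0 := zero_ridge hc (hI.fac F hF) (hI.fac F' hF') hne hR h1 h2
    refine ⟨?_, ?_, ?_⟩
    · intro X hX
      rcases mem_insert.1 hX with rfl | hX
      · exact h0
      · exact i1 X hX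
    · intro X hX
      rcases mem_insert.1 hX with rfl | hX
      · exact hR
      · exact i2 X hX
    · by_cases hA0 : (0 : Fin (n + 1)) ∈ A
      · rw [image_insert]
        refine GlueStage.glue _ (dn F) (dn F') (dn R) (dn A) i3 (mem_image_of_mem _ hF)
          (mem_image_of_mem _ hF') ?_ ?_ (dn_mono h1) (dn_mono h2) (image_notMem i1 h0 hG) ?_
          (dn_mono hAR) (same_dn hs)
        · intro e
          apply hne
          rw [← ap_dn (zero_facet (hI.fac F hF)), e, ap_dn (zero_facet (hI.fac F' hF'))]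
        · have := card_dn h0
          omega
        · have := card_dn hA0
          omega
      · -- `A` is the base of `R`, so it cannot be shared before `R` is glued
        exfalso
        have hRA : ∀ R' ∈ G, A ⊆ R' → R' = R := by
          intro R' hR' hAR'
          have e1 : insert 0 A = R' := by
            apply eq_of_subset_of_card_le
            · exact insert_subset (i1 R' hR') hAR'
            · rw [card_insert_of_notMem hA0, i2 R' hR', hA]
          have e2 : insert 0 A = R := by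
            apply eq_of_subset_of_card_le
            · exact insert_subset h0 hAR
            · rw [card_insert_of_notMem hA0, hR, hA]
          rw [← e1, e2]
        have hstay : ∀ X, SameFace 𝓕 G A F X → X = F := by
          intro X hX
          induction hX with
          | refl => rfl
          | tail _ h ih =>
            obtain ⟨-, -, R', hR', h3, -, -⟩ := h
            exact absurd (hRA R' hR' h3 ▸ hR') hG
        exact hne (hstay F' hs).symm

theorem tree_card {d : ℕ} {V : Type} [DecidableEq V] {K 𝓕 T : Finset (Finset V)}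
    (h : TreeStage d K 𝓕 T) : ∀ R ∈ T, R.card = d := by
  induction h with
  | start F hF => exact fun R hR => absurd hR (notMem_empty _)
  | attach 𝓕 T F F' R h hF hF' hn hR h1 h2 hT ih =>
    intro X hX
    rcases mem_insert.1 hX with rfl | hX
    · exact hR
    · exact ih X hX

/-- if the cone is locally constructible, then so is the base -/
theorem isTreeLC_of_cone (h : IsTreeLC (d + 1) (cone K)) : IsTreeLC d K := by
  obtain ⟨h1, h2, 𝓕, T, G, h3, h4, h5, h6⟩ := h
  have hc : ∀ F, IsFacet (cone K) F → F.card = d + 2 := h1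
  obtain ⟨hI, hT⟩ := tree_dn hc h3
  obtain ⟨-, -, hG⟩ := glue_dn hc hI (tree_card h3) h4
  refine ⟨?_, ?_, 𝓕.image dn, T.image dn, G.image dn, hT, hG, ?_, ?_⟩
  · intro F hF
    have := h1 (ap F) (facet_cone.2 ⟨F, hF, rfl⟩)
    rw [card_ap] at this
    omega
  · intro R hR X Y Z hX hY hZ hRX hRY hRZ
    have := h2 (ap R) (by rw [card_ap, hR]) (ap X) (ap Y) (ap Z) (facet_cone.2 ⟨X, hX, rfl⟩)
      (facet_cone.2 ⟨Y, hY, rfl⟩) (facet_cone.2 ⟨Z, hZ, rfl⟩) (ap_subset.2 hRX)
      (ap_subset.2 hRY) (ap_subset.2 hRZ)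
    rcases this with e | e | e
    · exact Or.inl (ap_inj e)
    · exact Or.inr (Or.inl (ap_inj e))
    · exact Or.inr (Or.inr (ap_inj e))
  · intro F hF
    exact mem_image.2 ⟨ap F, h5 _ (facet_cone.2 ⟨F, hF, rfl⟩), dn_ap F⟩
  · intro A hA F hF F' hF' hAF hAF'
    obtain ⟨X, hX, rfl⟩ := mem_image.1 hF
    obtain ⟨Y, hY, rfl⟩ := mem_image.1 hF'
    have hX0 := zero_facet (hI.fac X hX)
    have hY0 := zero_facet (hI.fac Y hY)
    have := same_dn (h6 (ap A) (ap_mem.2 hA) X hX Y hY
      (by rw [← ap_dn hX0]; exact ap_subset.2 hAF) (by rw [← ap_dn hY0]; exact ap_subset.2 hAF'))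
    rwa [dn_ap] at this

end Pool.Agent.X161.CN
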